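import Mathlib
import Pool.Agent.H97R2.BP.Defs
import Pool.Agent.H97R2.BP.Defs2

open scoped ComplexOrder InnerProductSpace ComplexConjugate TensorProduct
open Finset H759R2.Kad H710R2.DP

noncomputable section

namespace H97R2.BP

namespace ZZ237

section abs

variable {E : Type} [NormedAddCommGroup E] [InnerProductSpace ℂ E]

theorem re_inner_F (F : E ≃ₗᵢ⋆[ℂ] E) (x y : E) : (⟪F x, F y⟫_ℂ).re = (⟪x, y⟫_ℂ).re := by
  have h1 : ‖x + y‖ ^ 2 = ‖x‖ ^ 2 + 2 * (⟪x, y⟫_ℂ).re + ‖y‖ ^ 2 := norm_add_sq (𝕜 := ℂ) x y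
  have h2 : ‖F x + F y‖ ^ 2 = ‖F x‖ ^ 2 + 2 * (⟪F x, F y⟫_ℂ).re + ‖F y‖ ^ 2 :=
    norm_add_sq (𝕜 := ℂ) (F x) (F y)
  rw [← map_add, F.norm_map, F.norm_map, F.norm_map] at h2
  linarith

theorem im_inner_F (F : E ≃ₗᵢ⋆[ℂ] E) (x y : E) : (⟪F x, F y⟫_ℂ).im = -(⟪x, y⟫_ℂ).im := by
  have h := re_inner_F F x (Complex.I • y)
  rw [LinearIsometryEquiv.map_smulₛₗ, inner_smul_right, inner_smul_right] at h
  simp at h
  linarith

theorem im_inner_real (F : E ≃ₗᵢ⋆[ℂ] E) (x y : E) (hx : F x = x) (hy : F y = y) :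
    (⟪x, y⟫_ℂ).im = 0 := by
  have h := im_inner_F F x y
  rw [hx, hy] at h
  linarith

/-- norm of a positive symmetric operator -/
theorem norm_le_of_form (B : E →L[ℂ] E) (hs : ∀ u v, ⟪B u, v⟫_ℂ = ⟪u, B v⟫_ℂ) (M : ℝ) (hM : 0 ≤ M)
    (h0 : ∀ u, 0 ≤ (⟪u, B u⟫_ℂ).re) (h1 : ∀ u, (⟪u, B u⟫_ℂ).re ≤ M * ‖u‖ ^ 2) : ‖B‖ ≤ M := by
  apply B.opNorm_le_bound hM
  intro v
  rcases eq_or_ne (B v) 0 with hv | hv
  · rw [hv, norm_zero]
    positivity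
  have hBv : 0 < ‖B v‖ := norm_pos_iff.2 hv
  have hv0 : v ≠ 0 := by
    rintro rfl
    exact hv (map_zero B)
  have hvp : 0 < ‖v‖ := norm_pos_iff.2 hv0
  set t : ℝ := ‖v‖ / ‖B v‖ with ht
  have htp : 0 < t := by positivity
  set u : E := (t : ℂ) • B v with hu
  have hun : ‖u‖ = ‖v‖ := by
    rw [hu, norm_smul, Complex.norm_real, Real.norm_of_nonneg htp.le, ht]
    field_simp
  have hform : ∀ w z : E, (⟪w + z, B (w + z)⟫_ℂ).re =
      (⟪w, B w⟫_ℂ).re + (⟪z, B z⟫_ℂ).re + 2 * (⟪w, B z⟫_ℂ).re := by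
    intro w z
    rw [map_add, inner_add_left, inner_add_right, inner_add_right]
    have h2 : (⟪z, B w⟫_ℂ).re = (⟪w, B z⟫_ℂ).re := by
      rw [← hs, ← inner_conj_symm, Complex.conj_re]
    simp only [Complex.add_re]
    rw [h2]
    ring
  have h2 := hform u v
  have h3 := hform u (-v)
  have h4 : (⟪-v, B (-v)⟫_ℂ).re = (⟪v, B v⟫_ℂ).re := by
    rw [map_neg, inner_neg_neg]
  have h5 : (⟪u, B (-v)⟫_ℂ).re = -(⟪u, B v⟫_ℂ).re := by
    rw [map_neg, inner_neg_right, Complex.neg_re]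
  rw [h4, h5] at h3
  have h6 := h0 (u + -v)
  have h7 := h1 (u + v)
  have h8 : (⟪u, B v⟫_ℂ).re = t * ‖B v‖ ^ 2 := by
    rw [hu, inner_smul_left, inner_self_eq_norm_sq_to_K]
    simp [← Complex.ofReal_pow]
  have h9 : ‖u + v‖ ^ 2 ≤ (2 * ‖v‖) ^ 2 := by
    apply pow_le_pow_left₀ (norm_nonneg _)
    calc ‖u + v‖ ≤ ‖u‖ + ‖v‖ := norm_add_le _ _
      _ = 2 * ‖v‖ := by rw [hun]; ring
  have h10 : t * ‖B v‖ ^ 2 = ‖v‖ * ‖B v‖ := by
    rw [ht]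
    field_simp
  rw [h8, h10] at h2 h3
  have h11 : 4 * (‖v‖ * ‖B v‖) ≤ M * (2 * ‖v‖) ^ 2 := by
    have : M * ‖u + v‖ ^ 2 ≤ M * (2 * ‖v‖) ^ 2 := mul_le_mul_of_nonneg_left h9 hM
    linarith
  have h12 : ‖v‖ * ‖B v‖ ≤ ‖v‖ * (M * ‖v‖) := by nlinarith
  exact le_of_mul_le_mul_left h12 hvp

theorem real_abs [Nontrivial E] (F : E ≃ₗᵢ⋆[ℂ] E) (hF : ∀ x, F (F x) = x) (X : E →L[ℂ] E)
    (hs : ∀ u v, ⟪X u, v⟫_ℂ = ⟪u, X v⟫_ℂ) (hFX : ∀ h, F (X (F h)) = X h) (s : ℝ)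
    (hl : ∀ l : ℝ, 0 ≤ l → s + l ≤ ‖(l : ℂ) • (1 : E →L[ℂ] E) + X‖) (ε : ℝ) (hε : 0 < ε) :
    ∃ h : E, ‖h‖ = 1 ∧ F h = h ∧ s ≤ (⟪h, X h⟫_ℂ).re + ε := by
  by_contra hcon
  push Not at hcon
  -- real vectors
  have hreal : ∀ u : E, F u = u → (⟪u, X u⟫_ℂ).re ≤ (s - ε) * ‖u‖ ^ 2 := by
    intro u hu
    rcases eq_or_ne u 0 with h0 | h0
    · rw [h0]
      simp
    · have hup : 0 < ‖u‖ := norm_pos_iff.2 h0
      have h1 := hcon (((‖u‖⁻¹ : ℝ) : ℂ) • u) (by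
        rw [norm_smul, Complex.norm_real, norm_inv, norm_norm, inv_mul_cancel₀ hup.ne']) (by
        rw [LinearIsometryEquiv.map_smulₛₗ, hu]
        simp)
      rw [map_smul, inner_smul_left, inner_smul_right] at h1
      have h2 : (((starRingEnd ℂ) ((‖u‖⁻¹ : ℝ) : ℂ)) * (((‖u‖⁻¹ : ℝ) : ℂ) * ⟪u, X u⟫_ℂ)).re =
          ‖u‖⁻¹ ^ 2 * (⟪u, X u⟫_ℂ).re := by
        rw [Complex.conj_ofReal, ← mul_assoc, ← Complex.ofReal_mul, Complex.re_ofReal_mul]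
        ring
      rw [h2] at h1
      have h3 : ‖u‖⁻¹ ^ 2 * (⟪u, X u⟫_ℂ).re < s - ε := by linarith
      have h4 : (‖u‖⁻¹ ^ 2 * (⟪u, X u⟫_ℂ).re) * ‖u‖ ^ 2 < (s - ε) * ‖u‖ ^ 2 :=
        mul_lt_mul_of_pos_right h3 (by positivity)
      have h5 : (‖u‖⁻¹ ^ 2 * (⟪u, X u⟫_ℂ).re) * ‖u‖ ^ 2 = (⟪u, X u⟫_ℂ).re := by
        field_simp
      linarith
  -- all vectors
  have hall : ∀ h : E, (⟪h, X h⟫_ℂ).re ≤ (s - ε) * ‖h‖ ^ 2 := by
    intro h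
    set u : E := (1 / 2 : ℂ) • (h + F h) with hu
    set v : E := (-(Complex.I / 2) : ℂ) • (h - F h) with hv
    have hFu : F u = u := by
      rw [hu, LinearIsometryEquiv.map_smulₛₗ, map_add, hF, add_comm]
      congr 1
      rw [map_div₀, map_one, map_ofNat]
    have hFv : F v = v := by
      rw [hv, LinearIsometryEquiv.map_smulₛₗ, map_sub, hF]
      rw [← neg_sub h (F h), smul_neg, ← neg_smul]
      congr 1
      rw [map_neg, map_div₀, Complex.conj_I, map_ofNat]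
      ring
    have huv : h = u + Complex.I • v := by
      rw [hu, hv, smul_smul]
      have h1 : Complex.I * -(Complex.I / 2) = 1 / 2 := by
        have := Complex.I_mul_I
        linear_combination (-(1 / 2 : ℂ)) * this
      rw [h1, ← smul_add]
      have h2 : h + F h + (h - F h) = (2 : ℂ) • h := by
        rw [two_smul]; abel
      rw [h2, smul_smul]
      norm_num
    clear_value u v
    have hFXv : F (X v) = X v := by
      have h1 := hFX v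
      rwa [hFv] at h1
    have e1 : (⟪h, X h⟫_ℂ).re = (⟪u, X u⟫_ℂ).re + (⟪v, X v⟫_ℂ).re := by
      rw [huv, map_add, map_smul, inner_add_left, inner_add_right, inner_add_right,
        inner_smul_left, inner_smul_left, inner_smul_right, inner_smul_right]
      have h1 : (⟪u, X v⟫_ℂ).im = 0 := im_inner_real F u (X v) hFu hFXv
      have h2 : (⟪v, X u⟫_ℂ).im = 0 := by
        rw [← hs, ← inner_conj_symm, Complex.conj_im, h1, neg_zero]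
      simp [h1, h2]
    have e2 : ‖h‖ ^ 2 = ‖u‖ ^ 2 + ‖v‖ ^ 2 := by
      have h1 : (⟪u, v⟫_ℂ).im = 0 := im_inner_real F u v hFu hFv
      have h2 : ‖u + Complex.I • v‖ ^ 2 = ‖u‖ ^ 2 + 2 * (⟪u, Complex.I • v⟫_ℂ).re +
        ‖Complex.I • v‖ ^ 2 := norm_add_sq (𝕜 := ℂ) u (Complex.I • v)
      rw [← huv] at h2
      have h3 : ‖Complex.I • v‖ = ‖v‖ := by rw [norm_smul, Complex.norm_I, one_mul]
      rw [h2, inner_smul_right, h3]
      simp [h1]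
    have := hreal u hFu
    have := hreal v hFv
    rw [e1, e2]
    nlinarith
  -- the operator B
  have hB0 : ∀ u, 0 ≤ (⟪u, ((‖X‖ : ℝ) : ℂ) • u + X u⟫_ℂ).re := by
    intro u
    rw [inner_add_right, inner_smul_right, inner_self_eq_norm_sq_to_K]
    have h1 : |(⟪u, X u⟫_ℂ).re| ≤ ‖X‖ * ‖u‖ ^ 2 := by
      calc |(⟪u, X u⟫_ℂ).re| ≤ ‖⟪u, X u⟫_ℂ‖ := Complex.abs_re_le_norm _
        _ ≤ ‖u‖ * ‖X u‖ := norm_inner_le_norm _ _
        _ ≤ ‖u‖ * (‖X‖ * ‖u‖) := by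
            apply mul_le_mul_of_nonneg_left (X.le_opNorm u) (norm_nonneg _)
        _ = ‖X‖ * ‖u‖ ^ 2 := by ring
    have h2 : (((‖X‖ : ℝ) : ℂ) * ((‖u‖ : ℝ) : ℂ) ^ 2).re = ‖X‖ * ‖u‖ ^ 2 := by
      rw [← Complex.ofReal_pow, ← Complex.ofReal_mul, Complex.ofReal_re]
    have h3 := (abs_le.1 h1).1
    rw [Complex.add_re]
    have h4 : (((‖X‖ : ℝ) : ℂ) * ((‖u‖ : ℝ) : ℂ) ^ 2 + ⟪u, X u⟫_ℂ).re =
      ‖X‖ * ‖u‖ ^ 2 + (⟪u, X u⟫_ℂ).re := by rw [Complex.add_re, h2]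
    rw [← Complex.add_re]
    refine le_of_le_of_eq ?_ h4.symm
    linarith
  have hB1 : ∀ u, (⟪u, ((‖X‖ : ℝ) : ℂ) • u + X u⟫_ℂ).re ≤ (s - ε + ‖X‖) * ‖u‖ ^ 2 := by
    intro u
    have h1 := hall u
    rw [inner_add_right, inner_smul_right, inner_self_eq_norm_sq_to_K]
    have h2 : (((‖X‖ : ℝ) : ℂ) * ((‖u‖ : ℝ) : ℂ) ^ 2).re = ‖X‖ * ‖u‖ ^ 2 := by
      rw [← Complex.ofReal_pow, ← Complex.ofReal_mul, Complex.ofReal_re]
    have h4 : (((‖X‖ : ℝ) : ℂ) * ((‖u‖ : ℝ) : ℂ) ^ 2 + ⟪u, X u⟫_ℂ).re =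
      ‖X‖ * ‖u‖ ^ 2 + (⟪u, X u⟫_ℂ).re := by rw [Complex.add_re, h2]
    refine le_of_eq_of_le h4 ?_
    linarith
  have hM : 0 ≤ s - ε + ‖X‖ := by
    obtain ⟨w, hw⟩ := exists_ne (0 : E)
    have h1 := (hB0 w).trans (hB1 w)
    have h2 : 0 < ‖w‖ ^ 2 := by
      have := norm_pos_iff.2 hw
      positivity
    by_contra h3
    push Not at h3
    have := mul_neg_of_neg_of_pos h3 h2
    linarith
  have hB := norm_le_of_form (((‖X‖ : ℝ) : ℂ) • (1 : E →L[ℂ] E) + X) (by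
    intro u v
    have h1 : ∀ w, (((‖X‖ : ℝ) : ℂ) • (1 : E →L[ℂ] E) + X) w = ((‖X‖ : ℝ) : ℂ) • w + X w :=
      fun w => rfl
    rw [h1, h1, inner_add_left, inner_add_right, inner_smul_left, inner_smul_right, hs,
      Complex.conj_ofReal]) _ hM (fun u => hB0 u) (fun u => hB1 u)
  have := hl ‖X‖ (norm_nonneg X)
  linarith

end abs

section ten

variable {H : Type} [NormedAddCommGroup H] [InnerProductSpace ℂ H] [CompleteSpace H]

theorem inner_F (F : H ≃ₗᵢ⋆[ℂ] H) (x y : H) : ⟪F x, F y⟫_ℂ = ⟪y, x⟫_ℂ := by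
  rw [← inner_conj_symm y x]
  apply Complex.ext
  · rw [re_inner_F, Complex.conj_re]
  · rw [im_inner_F, Complex.conj_im]

theorem cj_adj (C : H ≃ₗᵢ⋆[ℂ] H) (hC : IsConj C) (b : H →L[ℂ] H) (x y : H) :
    ⟪cj C b x, y⟫_ℂ = ⟪x, cj C (star b) y⟫_ℂ := by
  rw [cj_apply, cj_apply]
  have h1 : ⟪C (b (C x)), y⟫_ℂ = ⟪C y, b (C x)⟫_ℂ := by
    conv_lhs => rw [← hC y]
    rw [inner_F]
  have h2 : ⟪x, C (star b (C y))⟫_ℂ = ⟪star b (C y), C x⟫_ℂ := by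
    conv_lhs => rw [← hC x]
    rw [inner_F]
  rw [h1, h2, ContinuousLinearMap.star_eq_adjoint, ContinuousLinearMap.adjoint_inner_left]

theorem tn_adj (C : H ≃ₗᵢ⋆[ℂ] H) (hC : IsConj C) (a b : H →L[ℂ] H) (u v : H ⊗[ℂ] H) :
    ⟪tn C a b u, v⟫_ℂ = ⟪u, tn C (star a) (star b) v⟫_ℂ := by
  induction u using TensorProduct.induction_on with
  | zero => simp
  | add x y hx hy => rw [map_add, inner_add_left, inner_add_left, hx, hy]
  | tmul x x' =>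
    induction v using TensorProduct.induction_on with
    | zero => simp
    | add y z hy hz => rw [map_add, inner_add_right, inner_add_right, hy, hz]
    | tmul y y' =>
      unfold tn
      rw [TensorProduct.mapL_tmul, TensorProduct.mapL_tmul, TensorProduct.inner_tmul,
        TensorProduct.inner_tmul, cj_adj C hC, ContinuousLinearMap.star_eq_adjoint a,
        ContinuousLinearMap.adjoint_inner_right]

end ten

end ZZ237

theorem bp_real : Z_real := by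
  intro H _ _ _ C hC F hF hFt ι _ y σ hσ hy s hl hH ε hε
  obtain ⟨x, hx⟩ := exists_ne (0 : H)
  have : Nontrivial (H ⊗[ℂ] H) := by
    refine ⟨x ⊗ₜ x, 0, ?_⟩
    rw [← norm_ne_zero_iff, TensorProduct.norm_tmul]
    have := norm_ne_zero_iff.2 hx
    exact mul_ne_zero this this
  refine ZZ237.real_abs F hF (∑ i, tn C (y i) (y i)) ?_ ?_ s hl ε hε
  · intro u v
    rw [_root_.sum_apply, _root_.sum_apply, sum_inner, inner_sum]
    have h1 : ∀ i, ⟪tn C (y i) (y i) u, v⟫_ℂ = ⟪u, tn C (y (σ i)) (y (σ i)) v⟫_ℂ := by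
      intro i
      rw [ZZ237.tn_adj C hC, hy i]
    rw [Finset.sum_congr rfl fun i _ => h1 i]
    exact Equiv.sum_comp (Function.Involutive.toPerm σ hσ)
      (fun i => ⟪u, tn C (y i) (y i) v⟫_ℂ)
  · intro h
    rw [_root_.sum_apply, _root_.sum_apply, map_sum]
    exact Finset.sum_congr rfl fun i _ => hFt _ _ _

end H97R2.BP
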